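import Pool.Agent.Helper93.SUB.Blk

/-!
Project SUB, row DSUP: the support of a derivative after a linear substitution.
-/

set_option autoImplicit false

namespace Pool.Agent.Helper93.SUB

open Finset MvPolynomial
open Pool.Agent.Helper70.SUB

/-- the Taylor expansion -/
noncomputable def tay {σ R : Type} [CommRing R] :
    MvPolynomial σ R →ₐ[R] MvPolynomial σ (MvPolynomial σ R) :=
  aeval (fun s => X s + C (X s))

theorem hd_eq {σ R : Type} [CommRing R] (J : σ →₀ ℕ) (P : MvPolynomial σ R) :
    hd J P = (tay P).coeff J := rfl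

/-- the substitution of the second set of variables -/
noncomputable def sub2 {m n : ℕ} {R : Type} [CommRing R] (N' : Matrix (Fin n) (Fin n) R) :
    MvPolynomial (Fin m × Fin n) (MvPolynomial (Fin m × Fin n) R) →ₐ[MvPolynomial (Fin m × Fin n) R]
      MvPolynomial (Fin m × Fin n) (MvPolynomial (Fin m × Fin n) R) :=
  aeval (fun s => MvPolynomial.map C (lf N' s))

theorem key {m n : ℕ} {R : Type} [CommRing R] (N N' : Matrix (Fin n) (Fin n) R)
    (hN : N * N' = 1) (P : MvPolynomial (Fin m × Fin n) R) :
    MvPolynomial.map ((lsub N : MvPolynomial (Fin m × Fin n) R →ₐ[R]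
      MvPolynomial (Fin m × Fin n) R) : MvPolynomial (Fin m × Fin n) R →+*
      MvPolynomial (Fin m × Fin n) R) (tay P) = sub2 N' (tay (lsub N P)) := by
  induction P using MvPolynomial.induction_on with
  | C a =>
    have h1 : lsub N (C a : MvPolynomial (Fin m × Fin n) R) = C a := by
      unfold lsub
      rw [aeval_C]
      rfl
    have h2 : tay (C a : MvPolynomial (Fin m × Fin n) R) = C (C a) := by
      unfold tay
      rw [aeval_C]
      rfl
    rw [h1, h2, map_C]
    unfold sub2
    rw [aeval_C]
    simp only [algebraMap_eq, RingHom.coe_coe]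
    rw [h1]
  | add p q hp hq =>
    rw [map_add, map_add, map_add, map_add, map_add, hp, hq]
  | mul_X p s hp =>
    rw [map_mul, map_mul, map_mul, map_mul, map_mul, hp]
    congr 1
    have h1 : tay (X s : MvPolynomial (Fin m × Fin n) R) = X s + C (X s) := by
      unfold tay
      rw [aeval_X]
    have h2 : lsub N (X s : MvPolynomial (Fin m × Fin n) R) = lf N s := by
      unfold lsub
      rw [aeval_X]
      rfl
    have h3 : sub2 N' (tay (lf N s)) = X s + C (lf N s) := by
      have h4 : ∀ k, sub2 N' (tay (C (N s.2 k) * X (s.1, k) : MvPolynomial (Fin m × Fin n) R))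
          = C (C (N s.2 k)) * (MvPolynomial.map C (lf N' (s.1, k)) + C (X (s.1, k))) := by
        intro k
        rw [map_mul, map_mul]
        congr 1
        · unfold tay sub2
          rw [aeval_C]
          have h5 : (algebraMap R (MvPolynomial (Fin m × Fin n) (MvPolynomial (Fin m × Fin n) R)))
            (N s.2 k) = C (C (N s.2 k)) := rfl
          rw [h5, aeval_C]
          rfl
        · unfold tay sub2
          rw [aeval_X, map_add, aeval_X, aeval_C]
          rfl
      unfold lf at h4 ⊢
      rw [map_sum, map_sum]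
      rw [Finset.sum_congr rfl fun k _ => h4 k]
      have h6 : ∀ k, C (C (N s.2 k)) * (MvPolynomial.map (C : R →+* MvPolynomial (Fin m × Fin n) R)
            (∑ k', C (N' k k') * X (s.1, k')) + C (X (s.1, k)))
          = (∑ k', C (C (N s.2 k * N' k k')) * X (s.1, k'))
            + C (C (N s.2 k) * X (s.1, k)) := by
        intro k
        rw [mul_add, map_sum, Finset.mul_sum, C_mul]
        congr 1
        refine Finset.sum_congr rfl fun k' _ => ?_
        rw [map_mul, map_C, map_X, ← mul_assoc, ← C_mul, ← C_mul]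
      rw [Finset.sum_congr rfl fun k _ => h6 k, Finset.sum_add_distrib, ← map_sum]
      congr 1
      rw [Finset.sum_comm]
      have h7 : ∀ k' : Fin n, ∑ k, (C (C (N s.2 k * N' k k')) *
          X (s.1, k') : MvPolynomial (Fin m × Fin n) (MvPolynomial (Fin m × Fin n) R))
          = if k' = s.2 then X s else 0 := by
        intro k'
        rw [← Finset.sum_mul, ← map_sum, ← map_sum]
        have h8 : ∑ k, N s.2 k * N' k k' = (1 : Matrix (Fin n) (Fin n) R) s.2 k' := by
          rw [← hN, Matrix.mul_apply]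
        rw [h8, Matrix.one_apply]
        by_cases hk : k' = s.2
        · rw [if_pos hk, if_pos hk.symm, hk]
          simp
        · rw [if_neg hk, if_neg (Ne.symm hk)]
          simp
      rw [Finset.sum_congr rfl fun k' _ => h7 k', Finset.sum_ite_eq', if_pos (Finset.mem_univ _)]
    rw [h1, h2, h3, map_add, map_X, map_C]
    simp only [RingHom.coe_coe]
    rw [h2]

theorem lsub_hd {m n : ℕ} {R : Type} [CommRing R] (N N' : Matrix (Fin n) (Fin n) R)
    (hN : N * N' = 1) (P : MvPolynomial (Fin m × Fin n) R) (J0 : Fin m × Fin n →₀ ℕ) :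
    lsub N (hd J0 P) = ∑ d ∈ (tay (lsub N P)).support,
      hd d (lsub N P) * C ((∏ s, lf N' s ^ d s).coeff J0) := by
  have h1 := congrArg (MvPolynomial.coeff J0) (key N N' hN P)
  rw [MvPolynomial.coeff_map] at h1
  rw [hd_eq]
  simp only [RingHom.coe_coe] at h1
  rw [h1]
  unfold sub2
  rw [MvPolynomial.aeval_def, MvPolynomial.eval₂_eq', MvPolynomial.coeff_sum]
  refine Finset.sum_congr rfl fun d _ => ?_
  have h2 : ∏ s, MvPolynomial.map (C : R →+* MvPolynomial (Fin m × Fin n) R) (lf N' s) ^ d s
      = MvPolynomial.map (C : R →+* MvPolynomial (Fin m × Fin n) R) (∏ s, lf N' s ^ d s) := by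
    rw [map_prod]
    exact Finset.prod_congr rfl fun s _ => (map_pow _ _ _).symm
  rw [h2, MvPolynomial.algebraMap_eq, MvPolynomial.coeff_C_mul, MvPolynomial.coeff_map, hd_eq]

theorem DSUP (hHD : ST_HD) : ST_DSUP := by
  intro m n N P J0 J hdet hJ
  have hN : N * N⁻¹ = 1 := Matrix.mul_nonsing_inv N (isUnit_iff_ne_zero.2 hdet)
  rw [lsub_hd N N⁻¹ hN, MvPolynomial.coeff_sum] at hJ
  obtain ⟨d, -, hd1⟩ := Finset.exists_ne_zero_of_sum_ne_zero hJ
  rw [mul_comm, MvPolynomial.coeff_C_mul] at hd1
  obtain ⟨h1, -⟩ := hHD (Fin m × Fin n) ℚ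
  rw [h1] at hd1
  have h2 := left_ne_zero_of_mul hd1
  have h3 := right_ne_zero_of_mul (right_ne_zero_of_mul hd1)
  refine ⟨d, fun h => ?_, h3⟩
  have h4 := prod_hom N⁻¹ d h2
  rw [← weight_wb, ← weight_wb, h4]

end Pool.Agent.Helper93.SUB
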