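import Pool.Agent.Helper70.SUB.SheetR

/-!
Project SUB: block degrees and linear substitutions.
-/

set_option autoImplicit false

namespace Pool.Agent.Helper93.SUB

open Finset MvPolynomial
open Pool.Agent.Helper70.SUB

/-- the weights of the blocks -/
def wb (m n : ℕ) : Fin m × Fin n → (Fin m → ℕ) := fun s => Pi.single s.1 1

theorem weight_wb {m n : ℕ} (J : Fin m × Fin n →₀ ℕ) (h : Fin m) :
    Finsupp.weight (wb m n) J h = ∑ i, J (h, i) := by
  rw [Finsupp.weight_apply, Finsupp.sum_fintype _ _ (by intro i; simp)]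
  rw [Finset.sum_apply, Fintype.sum_prod_type]
  rw [Finset.sum_eq_single h]
  · refine Finset.sum_congr rfl fun i _ => ?_
    simp [wb]
  · intro b _ hb
    refine Finset.sum_eq_zero fun i _ => ?_
    simp [wb, Pi.single_eq_of_ne hb.symm]
  · intro hh
    exact absurd (Finset.mem_univ h) hh

theorem mh_iff {m n : ℕ} {R : Type} [CommSemiring R] (r : Fin m → ℕ)
    (P : MvPolynomial (Fin m × Fin n) R) :
    MH r P ↔ IsWeightedHomogeneous (wb m n) P r := by
  constructor
  · intro hP J hJ
    funext h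
    rw [weight_wb]
    exact hP J hJ h
  · intro hP J hJ h
    rw [← weight_wb, hP hJ]

/-- the linear form which replaces a variable -/
noncomputable def lf {m n : ℕ} {R : Type} [CommRing R] (N : Matrix (Fin n) (Fin n) R)
    (s : Fin m × Fin n) : MvPolynomial (Fin m × Fin n) R :=
  ∑ k, C (N s.2 k) * X (s.1, k)

theorem lf_hom {m n : ℕ} {R : Type} [CommRing R] (N : Matrix (Fin n) (Fin n) R)
    (s : Fin m × Fin n) : IsWeightedHomogeneous (wb m n) (lf N s) (Pi.single s.1 1) := by
  unfold lf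
  refine IsWeightedHomogeneous.sum _ _ _ fun k _ => ?_
  have h1 := (isWeightedHomogeneous_C (wb m n) (N s.2 k)).mul
    (isWeightedHomogeneous_X R (wb m n) (s.1, k))
  rw [zero_add] at h1
  exact h1

theorem prod_hom {m n : ℕ} {R : Type} [CommRing R] (N : Matrix (Fin n) (Fin n) R)
    (d : Fin m × Fin n →₀ ℕ) :
    IsWeightedHomogeneous (wb m n) (∏ s, lf N s ^ d s) (Finsupp.weight (wb m n) d) := by
  have h1 := IsWeightedHomogeneous.prod (w := wb m n) (Finset.univ : Finset (Fin m × Fin n))
    (fun s => lf N s ^ d s) (fun s => d s • (Pi.single s.1 1 : Fin m → ℕ))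
    (fun s _ => (lf_hom N s).pow (d s))
  have h2 : Finsupp.weight (wb m n) d = ∑ s, d s • (Pi.single s.1 1 : Fin m → ℕ) := by
    rw [Finsupp.weight_apply, Finsupp.sum_fintype _ _ (by intro i; simp)]
    rfl
  rw [h2]
  exact h1

theorem lsub_eq {m n : ℕ} {R : Type} [CommRing R] (N : Matrix (Fin n) (Fin n) R)
    (P : MvPolynomial (Fin m × Fin n) R) :
    lsub N P = ∑ d ∈ P.support, C (P.coeff d) * ∏ s, lf N s ^ d s := by
  unfold lsub
  rw [MvPolynomial.aeval_def, MvPolynomial.eval₂_eq']
  rfl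

theorem mh_lsub {m n : ℕ} {R : Type} [CommRing R] (r : Fin m → ℕ)
    (N : Matrix (Fin n) (Fin n) R) (P : MvPolynomial (Fin m × Fin n) R) (hP : MH r P) :
    MH r (lsub N P) := by
  rw [mh_iff, lsub_eq]
  refine IsWeightedHomogeneous.sum _ _ _ fun d hd => ?_
  have h1 := (isWeightedHomogeneous_C (wb m n) (P.coeff d)).mul (prod_hom N d)
  rw [zero_add] at h1
  have h2 : Finsupp.weight (wb m n) d = r := by
    rw [mh_iff] at hP
    exact hP (MvPolynomial.mem_support_iff.1 hd)
  rw [h2] at h1
  exact h1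

end Pool.Agent.Helper93.SUB
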