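import Pool.Agent.Helper93.SUB.Blk

/-!
Project SUB, row LSB: size and homogeneity under a linear substitution.
-/

set_option autoImplicit false

namespace Pool.Agent.Helper93.SUB

open Finset MvPolynomial
open Pool.Agent.Helper70.SUB

theorem l1_nonneg {σ : Type} (P : MvPolynomial σ ℤ) : 0 ≤ l1 P := by
  unfold l1
  exact Finset.sum_nonneg fun J _ => abs_nonneg _

theorem l1_zero {σ : Type} : l1 (0 : MvPolynomial σ ℤ) = 0 := by
  simp [l1]

theorem l1_C {σ : Type} (c : ℤ) : l1 (C c : MvPolynomial σ ℤ) = |c| := by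
  classical
  by_cases hc : c = 0
  · subst hc
    simp [l1]
  · unfold l1
    have h1 : (C c : MvPolynomial σ ℤ).support = {0} := by
      rw [MvPolynomial.C_apply, MvPolynomial.support_monomial, if_neg hc]
    rw [h1, Finset.sum_singleton, MvPolynomial.coeff_C, if_pos rfl]

theorem l1_X {σ : Type} (s : σ) : l1 (X s : MvPolynomial σ ℤ) = 1 := by
  classical
  unfold l1
  rw [MvPolynomial.support_X, Finset.sum_singleton, MvPolynomial.coeff_X]
  simp

theorem l1_sum {σ ι : Type} [Fintype σ] [DecidableEq σ] (hL1 : ST_L1) (s : Finset ι)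
    (f : ι → MvPolynomial σ ℤ) : l1 (∑ i ∈ s, f i) ≤ ∑ i ∈ s, l1 (f i) := by
  classical
  obtain ⟨-, hadd, -⟩ := hL1 σ
  induction s using Finset.induction_on with
  | empty => simp [l1_zero]
  | insert a s ha ih =>
    rw [Finset.sum_insert ha, Finset.sum_insert ha]
    exact (hadd _ _).trans (by linarith)

theorem l1_pow {σ : Type} [Fintype σ] [DecidableEq σ] (hL1 : ST_L1)
    (f : MvPolynomial σ ℤ) (k : ℕ) : l1 (f ^ k) ≤ l1 f ^ k := by
  obtain ⟨hmul, -⟩ := hL1 σ
  induction k with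
  | zero =>
    rw [pow_zero, pow_zero, ← C_1, l1_C]
    simp
  | succ k ih =>
    rw [pow_succ, pow_succ]
    exact (hmul _ _).trans (mul_le_mul_of_nonneg_right ih (l1_nonneg f))

theorem l1_prod {σ ι : Type} [Fintype σ] [DecidableEq σ] (hL1 : ST_L1) (s : Finset ι)
    (f : ι → MvPolynomial σ ℤ) : l1 (∏ i ∈ s, f i) ≤ ∏ i ∈ s, l1 (f i) := by
  classical
  obtain ⟨hmul, -⟩ := hL1 σ
  induction s using Finset.induction_on with
  | empty =>
    rw [Finset.prod_empty, Finset.prod_empty, ← C_1, l1_C]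
    simp
  | insert a s ha ih =>
    rw [Finset.prod_insert ha, Finset.prod_insert ha]
    exact (hmul _ _).trans (mul_le_mul_of_nonneg_left ih (l1_nonneg _))

theorem l1_lf {m n : ℕ} (hL1 : ST_L1) (N : Matrix (Fin n) (Fin n) ℤ) (a : ℤ)
    (hN : ∀ i k, |N i k| ≤ a) (s : Fin m × Fin n) : l1 (lf N s) ≤ n * a := by
  unfold lf
  refine (l1_sum hL1 _ _).trans ?_
  obtain ⟨hmul, -⟩ := hL1 (Fin m × Fin n)
  calc ∑ k, l1 (C (N s.2 k) * X (s.1, k) : MvPolynomial (Fin m × Fin n) ℤ)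
      ≤ ∑ _k : Fin n, a := by
        refine Finset.sum_le_sum fun k _ => ?_
        refine (hmul _ _).trans ?_
        rw [l1_C, l1_X, mul_one]
        exact hN _ _
    _ = n * a := by
        rw [Finset.sum_const, Finset.card_univ, Fintype.card_fin, nsmul_eq_mul]

theorem LSB (hL1 : ST_L1) : ST_LSB := by
  intro m n r P N a hN hP
  refine ⟨mh_lsub r N P hP, ?_⟩
  rw [lsub_eq]
  refine (l1_sum hL1 _ _).trans ?_
  obtain ⟨hmul, -⟩ := hL1 (Fin m × Fin n)
  have h0 : ∀ d ∈ P.support, l1 (C (P.coeff d) * ∏ s, lf N s ^ d s)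
      ≤ |P.coeff d| * ((n : ℤ) * a) ^ (∑ h, r h) := by
    intro d hd
    refine (hmul _ _).trans ?_
    rw [l1_C]
    refine mul_le_mul_of_nonneg_left ?_ (abs_nonneg _)
    refine (l1_prod hL1 _ _).trans ?_
    calc ∏ s, l1 (lf N s ^ d s) ≤ ∏ s : Fin m × Fin n, ((n : ℤ) * a) ^ d s := by
          refine Finset.prod_le_prod (fun s _ => l1_nonneg _) fun s _ => ?_
          exact (l1_pow hL1 _ _).trans (pow_le_pow_left₀ (l1_nonneg _) (l1_lf hL1 N a hN s) _)
      _ = ((n : ℤ) * a) ^ (∑ h, r h) := by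
          rw [Finset.prod_pow_eq_pow_sum, Fintype.sum_prod_type]
          congr 1
          exact Finset.sum_congr rfl fun h _ => hP d (MvPolynomial.mem_support_iff.1 hd) h
  calc ∑ d ∈ P.support, l1 (C (P.coeff d) * ∏ s, lf N s ^ d s)
      ≤ ∑ d ∈ P.support, |P.coeff d| * ((n : ℤ) * a) ^ (∑ h, r h) := Finset.sum_le_sum h0
    _ = ((n : ℤ) * a) ^ (∑ h, r h) * l1 P := by
        unfold l1
        rw [← Finset.sum_mul, mul_comm]

end Pool.Agent.Helper93.SUB
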